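import Mathlib
import Pool.Agent.Helper976.HW.Comp

set_option autoImplicit false

namespace Pool.Agent.Helper976.HW

open Matrix

/-- Gaussian integers in the complex numbers -/
noncomputable abbrev φ : GaussianInt →+* ℂ := GaussianInt.toComplex

noncomputable def al (i : Fin 3) : ℂ := φ (351649 * dg i)

noncomputable def T : Matrix (Fin 3) (Fin 3) ℂ := φ.mapMatrix Tg

noncomputable def Y : Matrix (Fin 3) (Fin 3) ℂ := φ.mapMatrix Yg

noncomputable def U : Matrix (Fin 3) (Fin 3) ℂ := (1 / 593 : ℂ) • T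

lemma map_conjTranspose (A : Matrix (Fin 3) (Fin 3) GaussianInt) :
    φ.mapMatrix A.conjTranspose = (φ.mapMatrix A).conjTranspose := by
  ext i j
  simp [Matrix.conjTranspose_apply, RingHom.mapMatrix_apply, Matrix.map_apply,
    GaussianInt.toComplex_star]

lemma map_diagonal (d : Fin 3 → GaussianInt) :
    φ.mapMatrix (Matrix.diagonal d) = Matrix.diagonal (fun i => φ (d i)) := by
  rw [RingHom.mapMatrix_apply, Matrix.diagonal_map (map_zero φ)]

lemma hTT : T * star T = Matrix.diagonal (fun _ => (351649 : ℂ)) := by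
  rw [Matrix.star_eq_conjTranspose, T, ← map_conjTranspose, ← map_mul, hT, map_diagonal]
  congr 1
  funext i
  exact map_ofNat φ 351649

lemma hU : U ∈ Matrix.unitaryGroup (Fin 3) ℂ := by
  rw [Matrix.mem_unitaryGroup_iff, U, star_smul, Matrix.smul_mul, Matrix.mul_smul, smul_smul, hTT]
  ext i j
  by_cases hij : i = j
  · subst hij
    simp
    norm_num
  · simp [Matrix.diagonal_apply_ne _ hij, Matrix.one_apply_ne hij]

lemma hX : U * Matrix.diagonal al * star U - 1 * Matrix.diagonal (fun i => - al i) *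
    star (1 : Matrix (Fin 3) (Fin 3) ℂ) = Y := by
  have h1 := congrArg (fun A => φ.mapMatrix A) hY
  simp only [map_add, map_mul, map_conjTranspose, map_diagonal] at h1
  rw [star_one, one_mul, mul_one, U, star_smul, Matrix.smul_mul, Matrix.smul_mul, Matrix.mul_smul,
    smul_smul]
  change _ = φ.mapMatrix Yg
  rw [← h1]
  have h2 : (Matrix.diagonal al : Matrix (Fin 3) (Fin 3) ℂ) =
      (351649 : ℂ) • Matrix.diagonal (fun i => φ (dg i)) := by
    ext i j
    by_cases hij : i = j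
    · subst hij
      simp only [al, Matrix.diagonal_apply_eq, Matrix.smul_apply, smul_eq_mul, map_mul]
      rw [map_ofNat φ 351649]
    · simp [Matrix.diagonal_apply_ne _ hij]
  have h3 : (Matrix.diagonal (fun i => - al i) : Matrix (Fin 3) (Fin 3) ℂ) =
      - Matrix.diagonal (fun i => φ 351649 * φ (dg i)) := by
    ext i j
    by_cases hij : i = j
    · subst hij
      simp [al]
    · simp [Matrix.diagonal_apply_ne _ hij]
  rw [h3, sub_neg_eq_add, h2, Matrix.mul_smul, Matrix.smul_mul, smul_smul,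
    Matrix.star_eq_conjTranspose]
  have h4 : (1 / 593 * star (1 / 593 : ℂ)) * 351649 = 1 := by
    simp
    norm_num
  rw [h4, one_smul]
  rfl

lemma htrY : ((Y.conjTranspose * Y) ^ 9).trace.re < (9142874 : ℝ) ^ 18 := by
  have h1 : (Yg.conjTranspose * Yg) ^ 9 = P8 * P1 := by
    rw [hP1, ← hP8, ← hP4, ← hP2]
    simp only [pow_succ, pow_zero, one_mul, Matrix.mul_assoc]
  have h2 : (Y.conjTranspose * Y) ^ 9 = φ.mapMatrix (P8 * P1) := by
    rw [← h1, map_pow, map_mul, map_conjTranspose]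
    rfl
  have h3 : (φ.mapMatrix (P8 * P1)).trace = φ (P8 * P1).trace := by
    rw [RingHom.mapMatrix_apply]
    exact (AddMonoidHom.map_trace φ (P8 * P1)).symm
  rw [h2, h3]
  have h4 := htr
  have h5 : (φ (P8 * P1).trace).re = (((P8 * P1).trace.re : ℤ) : ℝ) :=
    (GaussianInt.intCast_re _).symm
  rw [h5]
  exact_mod_cast h4

lemma norm_al (i j : Fin 3) : ‖al i + al j‖ = 351649 * ‖φ (dg i) + φ (dg j)‖ := by
  simp only [al, map_mul]
  rw [map_ofNat φ 351649, ← mul_add, norm_mul]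
  simp

lemma norm_ge {z : ℂ} (h : (26 : ℝ) ^ 2 ≤ Complex.normSq z) : (26 : ℝ) ≤ ‖z‖ := by
  rw [Complex.normSq_eq_norm_sq] at h
  exact abs_le_of_sq_le_sq' h (norm_nonneg z) |>.2

lemma d00 : (26 : ℝ) ≤ ‖φ (dg 0) + φ (dg 0)‖ := by
  apply norm_ge
  rw [← map_add, GaussianInt.toComplex_def, Complex.normSq_apply]
  simp [dg]
  norm_num

lemma d02 : (26 : ℝ) ≤ ‖φ (dg 0) + φ (dg 2)‖ := by
  apply norm_ge
  rw [← map_add, GaussianInt.toComplex_def, Complex.normSq_apply]
  simp [dg]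
  norm_num

lemma d22 : (26 : ℝ) ≤ ‖φ (dg 2) + φ (dg 2)‖ := by
  apply norm_ge
  rw [← map_add, GaussianInt.toComplex_def, Complex.normSq_apply]
  simp [dg]
  norm_num

lemma dist_big (σ : Equiv.Perm (Fin 3)) : ∃ i, (9142874 : ℝ) ≤ ‖al i - (fun j => - al j) (σ i)‖ := by
  have key : ∀ i j : Fin 3, (26 : ℝ) ≤ ‖φ (dg i) + φ (dg j)‖ →
      (9142874 : ℝ) ≤ ‖al i - (fun j => - al j) j‖ := by
    intro i j h
    simp only [sub_neg_eq_add]
    rw [norm_al]
    linarith
  have d20 : (26 : ℝ) ≤ ‖φ (dg 2) + φ (dg 0)‖ := by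
    rw [add_comm]
    exact d02
  have h0 : σ 0 = 0 ∨ σ 0 = 1 ∨ σ 0 = 2 := by
    generalize σ 0 = x
    fin_cases x <;> simp
  have h2 : σ 2 = 0 ∨ σ 2 = 1 ∨ σ 2 = 2 := by
    generalize σ 2 = x
    fin_cases x <;> simp
  rcases h0 with h | h | h
  · exact ⟨0, key 0 _ (by rw [h]; exact d00)⟩
  · rcases h2 with h' | h' | h'
    · exact ⟨2, key 2 _ (by rw [h']; exact d20)⟩
    · exact absurd (σ.injective (h.trans h'.symm)) (by decide)
    · exact ⟨2, key 2 _ (by rw [h']; exact d22)⟩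
  · exact ⟨0, key 0 _ (by rw [h]; exact d02)⟩

/-- the Schatten norm of the difference is small -/
lemma schatten_lt (e : Fin 3 → ℝ) (he : ∀ i, 0 ≤ e i) (hs : ∑ i, e i ^ 9 < (9142874 : ℝ) ^ 18)
    (p : ℝ) (hp : 18 ≤ p) : ∑ i, Real.sqrt (e i) ^ p < (9142874 : ℝ) ^ p := by
  have h1 : ∀ i, Real.sqrt (e i) ≤ 9142874 := by
    intro i
    have h2 : e i ^ 9 ≤ ∑ i, e i ^ 9 :=
      Finset.single_le_sum (f := fun i => e i ^ 9) (fun i _ => pow_nonneg (he i) 9) (Finset.mem_univ i)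
    have h3 : e i ^ 9 ≤ ((9142874 : ℝ) ^ 2) ^ 9 := by
      rw [← pow_mul]
      exact h2.trans hs.le
    have h4 : e i ≤ (9142874 : ℝ) ^ 2 := le_of_pow_le_pow_left₀ (by norm_num) (by positivity) h3
    exact Real.sqrt_le_iff.mpr ⟨by norm_num, h4⟩
  have h2 : ∀ i, Real.sqrt (e i) ^ p ≤ e i ^ 9 * (9142874 : ℝ) ^ (p - 18) := by
    intro i
    have h3 : Real.sqrt (e i) ^ p = Real.sqrt (e i) ^ (18 : ℝ) * Real.sqrt (e i) ^ (p - 18) := by
      rw [← Real.rpow_add_of_nonneg (Real.sqrt_nonneg _) (by norm_num) (by linarith)]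
      congr 1
      ring
    have h4 : Real.sqrt (e i) ^ (18 : ℝ) = e i ^ 9 := by
      have h5 : Real.sqrt (e i) ^ (18 : ℝ) = Real.sqrt (e i) ^ (18 : ℕ) := by
        exact_mod_cast Real.rpow_natCast (Real.sqrt (e i)) 18
      rw [h5, show (18 : ℕ) = 2 * 9 from rfl, pow_mul, Real.sq_sqrt (he i)]
    rw [h3, h4]
    exact mul_le_mul_of_nonneg_left (Real.rpow_le_rpow (Real.sqrt_nonneg _) (h1 i) (by linarith))
      (pow_nonneg (he i) 9)
  calc ∑ i, Real.sqrt (e i) ^ p ≤ ∑ i, e i ^ 9 * (9142874 : ℝ) ^ (p - 18) :=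
        Finset.sum_le_sum fun i _ => h2 i
    _ = (∑ i, e i ^ 9) * (9142874 : ℝ) ^ (p - 18) := by rw [Finset.sum_mul]
    _ < (9142874 : ℝ) ^ 18 * (9142874 : ℝ) ^ (p - 18) :=
        mul_lt_mul_of_pos_right hs (by positivity)
    _ = (9142874 : ℝ) ^ p := by
        have h5 : (9142874 : ℝ) ^ 18 = (9142874 : ℝ) ^ (18 : ℝ) := by
          exact_mod_cast (Real.rpow_natCast (9142874 : ℝ) 18).symm
        rw [h5, ← Real.rpow_add (by norm_num)]
        congr 1
        ring

open scoped ComplexOrder in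
lemma eig_nonneg (X : Matrix (Fin 3) (Fin 3) ℂ) (i : Fin 3) :
    0 ≤ (Matrix.isHermitian_conjTranspose_mul_self X).eigenvalues i :=
  (Matrix.posSemidef_conjTranspose_mul_self X).eigenvalues_nonneg i

theorem main (p : ℝ) (hp : 18 ≤ p) (σ : Equiv.Perm (Fin 3)) :
    (∑ i, Real.sqrt ((Matrix.isHermitian_conjTranspose_mul_self
      (U * Matrix.diagonal al * star U - 1 * Matrix.diagonal (fun i => - al i) *
        star (1 : Matrix (Fin 3) (Fin 3) ℂ))).eigenvalues i) ^ p) ^ (1 / p) <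
      (∑ i, ‖al i - (fun j => - al j) (σ i)‖ ^ p) ^ (1 / p) := by
  have hp0 : 0 < p := by linarith
  set X : Matrix (Fin 3) (Fin 3) ℂ := U * Matrix.diagonal al * star U -
    1 * Matrix.diagonal (fun i => - al i) * star (1 : Matrix (Fin 3) (Fin 3) ℂ) with hXdef
  have hXY : X = Y := hX
  set hM := Matrix.isHermitian_conjTranspose_mul_self X with hMdef
  have he : ∀ i, 0 ≤ hM.eigenvalues i := by
    intro i
    exact eig_nonneg X i
  have hs : ∑ i, hM.eigenvalues i ^ 9 < (9142874 : ℝ) ^ 18 := by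
    have h1 := trace_pow_eq (X.conjTranspose * X) hM 9
    have h2 : ((X.conjTranspose * X) ^ 9).trace.re = ∑ i, hM.eigenvalues i ^ 9 := by
      rw [h1]
      simp only [← Complex.ofReal_pow]
      rw [← Complex.ofReal_sum, Complex.ofReal_re]
    rw [← h2, hXY]
    exact htrY
  have h3 := schatten_lt _ he hs p hp
  obtain ⟨i, hi⟩ := dist_big σ
  have h4 : (9142874 : ℝ) ^ p ≤ ∑ i, ‖al i - (fun j => - al j) (σ i)‖ ^ p := by
    refine (Real.rpow_le_rpow (by norm_num) hi hp0.le).trans ?_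
    exact Finset.single_le_sum (f := fun i => ‖al i - (fun j => - al j) (σ i)‖ ^ p)
      (fun i _ => Real.rpow_nonneg (norm_nonneg _) p) (Finset.mem_univ i)
  exact Real.rpow_lt_rpow (Finset.sum_nonneg fun i _ => Real.rpow_nonneg (Real.sqrt_nonneg _) p)
    (h3.trans_le h4) (by positivity)

end Pool.Agent.Helper976.HW
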